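import Pool.Agent.J4H88.ABG.FreeAlt

/-!
# Project ABG, job FA: the free alternative algebra

The algebra structure on `Alt 𝕜 X`, the universal property, and a basis of eigenvectors of the degree derivation.
-/

namespace Pool.Agent.J4H71.ABG

open Pool.Agent.J4H88.ABG

universe u v w

section FA

variable (𝕜 : Type u) [Field 𝕜] (X : Type v)

/-- the submodules in the definition of `altIdeal` -/
def Good (I : Submodule 𝕜 (FreeNonUnitalNonAssocAlgebra 𝕜 X)) : Prop :=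
  (∀ p q, (p * p) * q - p * (p * q) ∈ I) ∧ (∀ p q, (q * p) * p - q * (p * p) ∈ I) ∧
    (∀ a, ∀ x ∈ I, a * x ∈ I) ∧ (∀ a, ∀ x ∈ I, x * a ∈ I)

lemma altIdeal_le {I : Submodule 𝕜 (FreeNonUnitalNonAssocAlgebra 𝕜 X)} (h : Good 𝕜 X I) :
    altIdeal 𝕜 X ≤ I := sInf_le h

lemma good_altIdeal : Good 𝕜 X (altIdeal 𝕜 X) := by
  refine ⟨fun p q => ?_, fun p q => ?_, fun a x hx => ?_, fun a x hx => ?_⟩
  · exact (Submodule.mem_sInf).2 fun I hI => hI.1 p q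
  · exact (Submodule.mem_sInf).2 fun I hI => hI.2.1 p q
  · exact (Submodule.mem_sInf).2 fun I hI => hI.2.2.1 a x ((Submodule.mem_sInf).1 hx I hI)
  · exact (Submodule.mem_sInf).2 fun I hI => hI.2.2.2 a x ((Submodule.mem_sInf).1 hx I hI)

/-- the product of classes -/
noncomputable def mulQ (a b : Alt 𝕜 X) : Alt 𝕜 X :=
  Quotient.map₂ (fun x y => x * y) (by
    intro x x' hx y y' hy
    have hx' : x - x' ∈ altIdeal 𝕜 X := (Submodule.quotientRel_def _).1 hx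
    have hy' : y - y' ∈ altIdeal 𝕜 X := (Submodule.quotientRel_def _).1 hy
    refine (Submodule.quotientRel_def _).2 ?_
    have h : x * y - x' * y' = (x - x') * y + x' * (y - y') := by
      simp only [sub_mul, mul_sub]
      abel
    rw [h]
    exact Submodule.add_mem _ ((good_altIdeal 𝕜 X).2.2.2 _ _ hx')
      ((good_altIdeal 𝕜 X).2.2.1 _ _ hy')) a b

lemma mulQ_mk (x y : FreeNonUnitalNonAssocAlgebra 𝕜 X) :
    mulQ 𝕜 X ((altIdeal 𝕜 X).mkQ x) ((altIdeal 𝕜 X).mkQ y) = (altIdeal 𝕜 X).mkQ (x * y) := rfl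

lemma exists_mk (a : Alt 𝕜 X) : ∃ x, (altIdeal 𝕜 X).mkQ x = a :=
  Submodule.mkQ_surjective _ a

/-- the algebra structure of `Alt` -/
noncomputable instance instRing : NonUnitalNonAssocRing (Alt 𝕜 X) :=
  { (inferInstance : AddCommGroup (Alt 𝕜 X)) with
    mul := mulQ 𝕜 X
    left_distrib := by
      intro a b c
      obtain ⟨a, rfl⟩ := exists_mk 𝕜 X a
      obtain ⟨b, rfl⟩ := exists_mk 𝕜 X b
      obtain ⟨c, rfl⟩ := exists_mk 𝕜 X c
      change mulQ 𝕜 X _ _ = mulQ 𝕜 X _ _ + mulQ 𝕜 X _ _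
      rw [← map_add, mulQ_mk, mulQ_mk, mulQ_mk, mul_add, map_add]
    right_distrib := by
      intro a b c
      obtain ⟨a, rfl⟩ := exists_mk 𝕜 X a
      obtain ⟨b, rfl⟩ := exists_mk 𝕜 X b
      obtain ⟨c, rfl⟩ := exists_mk 𝕜 X c
      change mulQ 𝕜 X _ _ = mulQ 𝕜 X _ _ + mulQ 𝕜 X _ _
      rw [← map_add, mulQ_mk, mulQ_mk, mulQ_mk, add_mul, map_add]
    zero_mul := by
      intro a
      obtain ⟨a, rfl⟩ := exists_mk 𝕜 X a
      change mulQ 𝕜 X 0 _ = 0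
      rw [← map_zero (altIdeal 𝕜 X).mkQ, mulQ_mk, zero_mul]
    mul_zero := by
      intro a
      obtain ⟨a, rfl⟩ := exists_mk 𝕜 X a
      change mulQ 𝕜 X _ 0 = 0
      rw [← map_zero (altIdeal 𝕜 X).mkQ, mulQ_mk, mul_zero] }

lemma mk_mul (x y : FreeNonUnitalNonAssocAlgebra 𝕜 X) :
    (altIdeal 𝕜 X).mkQ x * (altIdeal 𝕜 X).mkQ y = (altIdeal 𝕜 X).mkQ (x * y) := rfl

instance instTower : IsScalarTower 𝕜 (Alt 𝕜 X) (Alt 𝕜 X) := ⟨by
  intro c a b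
  obtain ⟨a, rfl⟩ := exists_mk 𝕜 X a
  obtain ⟨b, rfl⟩ := exists_mk 𝕜 X b
  rw [smul_eq_mul, smul_eq_mul, ← map_smul, mk_mul, mk_mul, ← map_smul, smul_mul_assoc]⟩

instance instComm : SMulCommClass 𝕜 (Alt 𝕜 X) (Alt 𝕜 X) := ⟨by
  intro c a b
  obtain ⟨a, rfl⟩ := exists_mk 𝕜 X a
  obtain ⟨b, rfl⟩ := exists_mk 𝕜 X b
  rw [smul_eq_mul, smul_eq_mul, ← map_smul, mk_mul, mk_mul, ← map_smul, mul_smul_comm]⟩

instance instAlt : IsAlt (Alt 𝕜 X) where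
  left_alt := by
    intro p q
    obtain ⟨p, rfl⟩ := exists_mk 𝕜 X p
    obtain ⟨q, rfl⟩ := exists_mk 𝕜 X q
    rw [mk_mul, mk_mul, mk_mul, mk_mul, ← sub_eq_zero, ← map_sub, Submodule.mkQ_apply,
      Submodule.Quotient.mk_eq_zero]
    exact (good_altIdeal 𝕜 X).1 p q
  right_alt := by
    intro p q
    obtain ⟨p, rfl⟩ := exists_mk 𝕜 X p
    obtain ⟨q, rfl⟩ := exists_mk 𝕜 X q
    rw [mk_mul, mk_mul, mk_mul, mk_mul, ← sub_eq_zero, ← map_sub, Submodule.mkQ_apply,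
      Submodule.Quotient.mk_eq_zero]
    exact (good_altIdeal 𝕜 X).2.1 p q

/-- the projection -/
noncomputable def proj : FreeNonUnitalNonAssocAlgebra 𝕜 X →ₙₐ[𝕜] Alt 𝕜 X :=
  { (altIdeal 𝕜 X).mkQ with
    map_smul' := fun c x => map_smul (altIdeal 𝕜 X).mkQ c x
    map_zero' := map_zero (altIdeal 𝕜 X).mkQ
    map_mul' := fun _ _ => rfl }

lemma proj_apply (x : FreeNonUnitalNonAssocAlgebra 𝕜 X) : proj 𝕜 X x = (altIdeal 𝕜 X).mkQ x := rfl

variable {X}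

/-- the generators -/
noncomputable def gen (x : X) : Alt 𝕜 X := (altIdeal 𝕜 X).mkQ (FreeNonUnitalNonAssocAlgebra.of 𝕜 x)

variable {A : Type w} [NonUnitalNonAssocRing A] [Module 𝕜 A] [IsScalarTower 𝕜 A A]
  [SMulCommClass 𝕜 A A] [IsAlt A]

lemma altIdeal_le_ker (g : FreeNonUnitalNonAssocAlgebra 𝕜 X →ₙₐ[𝕜] A) :
    altIdeal 𝕜 X ≤ LinearMap.ker (g : FreeNonUnitalNonAssocAlgebra 𝕜 X →ₗ[𝕜] A) := by
  apply altIdeal_le
  refine ⟨fun p q => ?_, fun p q => ?_, fun a x hx => ?_, fun a x hx => ?_⟩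
  · rw [LinearMap.mem_ker]
    change g _ = 0
    rw [map_sub, map_mul, map_mul, map_mul, map_mul, IsAlt.left_alt, sub_self]
  · rw [LinearMap.mem_ker]
    change g _ = 0
    rw [map_sub, map_mul, map_mul, map_mul, map_mul, IsAlt.right_alt, sub_self]
  · rw [LinearMap.mem_ker] at hx ⊢
    change g x = 0 at hx
    change g _ = 0
    rw [map_mul, hx, mul_zero]
  · rw [LinearMap.mem_ker] at hx ⊢
    change g x = 0 at hx
    change g _ = 0
    rw [map_mul, hx, zero_mul]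

/-- the homomorphism with given images of the generators -/
noncomputable def altLift (f : X → A) : Alt 𝕜 X →ₙₐ[𝕜] A :=
  { (altIdeal 𝕜 X).liftQ (FreeNonUnitalNonAssocAlgebra.lift 𝕜 f :
      FreeNonUnitalNonAssocAlgebra 𝕜 X →ₗ[𝕜] A) (altIdeal_le_ker 𝕜 _) with
    map_smul' := fun c x => map_smul ((altIdeal 𝕜 X).liftQ (FreeNonUnitalNonAssocAlgebra.lift 𝕜 f :
      FreeNonUnitalNonAssocAlgebra 𝕜 X →ₗ[𝕜] A) (altIdeal_le_ker 𝕜 _)) c x
    map_zero' := map_zero ((altIdeal 𝕜 X).liftQ (FreeNonUnitalNonAssocAlgebra.lift 𝕜 f :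
      FreeNonUnitalNonAssocAlgebra 𝕜 X →ₗ[𝕜] A) (altIdeal_le_ker 𝕜 _))
    map_mul' := by
      intro a b
      obtain ⟨a, rfl⟩ := exists_mk 𝕜 X a
      obtain ⟨b, rfl⟩ := exists_mk 𝕜 X b
      change (FreeNonUnitalNonAssocAlgebra.lift 𝕜 f) (a * b) = _
      rw [map_mul]
      rfl }

lemma altLift_mk (f : X → A) (x : FreeNonUnitalNonAssocAlgebra 𝕜 X) :
    altLift 𝕜 f ((altIdeal 𝕜 X).mkQ x) = FreeNonUnitalNonAssocAlgebra.lift 𝕜 f x := rfl

lemma altLift_gen (f : X → A) (x : X) : altLift 𝕜 f (gen 𝕜 x) = f x := by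
  rw [gen, altLift_mk, FreeNonUnitalNonAssocAlgebra.lift_of_apply]

/-- **Universal property.** -/
theorem alt_univ (f : X → A) : ∃! g : Alt 𝕜 X →ₙₐ[𝕜] A, ∀ x, g (gen 𝕜 x) = f x := by
  refine ⟨altLift 𝕜 f, altLift_gen 𝕜 f, fun g hg => ?_⟩
  have h : g.comp (proj 𝕜 X) = FreeNonUnitalNonAssocAlgebra.lift 𝕜 f := by
    apply FreeNonUnitalNonAssocAlgebra.hom_ext
    intro x
    rw [FreeNonUnitalNonAssocAlgebra.lift_of_apply]
    exact hg x
  ext a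
  obtain ⟨a, rfl⟩ := exists_mk 𝕜 X a
  rw [altLift_mk, ← h]
  rfl

end FA

end Pool.Agent.J4H71.ABG
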