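import Pool.Agent.J4H71.ABG.Fa

/-!
# Project ABG, job FA: a basis of eigenvectors of the degree derivation
-/

namespace Pool.Agent.J4H71.ABG

open Pool.Agent.J4H88.ABG

universe u v w

lemma len_mul {X : Type v} (x y : FreeMagma X) : (x * y).length = x.length + y.length := rfl

lemma len_of {X : Type v} (x : X) : (FreeMagma.of x).length = 1 := rfl

section Deg

variable (𝕜 : Type u) [Field 𝕜] (X : Type v)

/-- the word `w` in the free nonassociative algebra -/
noncomputable def wrd (w : FreeMagma X) : FreeNonUnitalNonAssocAlgebra 𝕜 X :=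
  MonoidAlgebra.single w 1

lemma wrd_mul (w w' : FreeMagma X) : wrd 𝕜 X (w * w') = wrd 𝕜 X w * wrd 𝕜 X w' := by
  rw [wrd, wrd, wrd, MonoidAlgebra.single_mul_single, mul_one]

lemma single_eq (w : FreeMagma X) (r : 𝕜) :
    (MonoidAlgebra.single w r : FreeNonUnitalNonAssocAlgebra 𝕜 X) = r • wrd 𝕜 X w := by
  rw [wrd, MonoidAlgebra.smul_single, smul_eq_mul, mul_one]

/-- the degree derivation on the free nonassociative algebra -/
noncomputable def dg : FreeNonUnitalNonAssocAlgebra 𝕜 X →ₗ[𝕜] FreeNonUnitalNonAssocAlgebra 𝕜 X :=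
  (MonoidAlgebra.basis (FreeMagma X) 𝕜).constr 𝕜 fun w => (w.length : 𝕜) • wrd 𝕜 X w

lemma dg_wrd (w : FreeMagma X) : dg 𝕜 X (wrd 𝕜 X w) = (w.length : 𝕜) • wrd 𝕜 X w := by
  have h : wrd 𝕜 X w = MonoidAlgebra.basis (FreeMagma X) 𝕜 w := by
    rw [MonoidAlgebra.basis_apply]
    rfl
  conv_lhs => rw [h]
  rw [dg, Module.Basis.constr_basis]

lemma dg_mul (x y : FreeNonUnitalNonAssocAlgebra 𝕜 X) :
    dg 𝕜 X (x * y) = dg 𝕜 X x * y + x * dg 𝕜 X y := by
  induction x using MonoidAlgebra.induction_linear with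
  | zero => simp
  | add x x' hx hx' =>
    rw [add_mul, map_add, hx, hx', map_add, add_mul, add_mul]
    abel
  | single w r =>
    induction y using MonoidAlgebra.induction_linear with
    | zero => simp
    | add y y' hy hy' =>
      rw [mul_add, map_add, hy, hy', map_add, mul_add, mul_add]
      abel
    | single w' r' =>
      rw [single_eq, single_eq, smul_mul_smul_comm, ← wrd_mul, map_smul, dg_wrd, map_smul, map_smul,
        dg_wrd, dg_wrd, len_mul, Nat.cast_add, add_smul, smul_smul, smul_smul,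
        smul_mul_smul_comm, smul_mul_smul_comm, ← wrd_mul, smul_add, smul_smul, smul_smul]
      congr 2 <;> ring

lemma dg_altIdeal (x : FreeNonUnitalNonAssocAlgebra 𝕜 X) (hx : x ∈ altIdeal 𝕜 X) :
    dg 𝕜 X x ∈ altIdeal 𝕜 X := by
  obtain ⟨h1, h2, h3, h4⟩ := good_altIdeal 𝕜 X
  have h : altIdeal 𝕜 X ≤ altIdeal 𝕜 X ⊓ (altIdeal 𝕜 X).comap (dg 𝕜 X) := by
    apply altIdeal_le
    refine ⟨fun p q => ⟨h1 p q, ?_⟩, fun p q => ⟨h2 p q, ?_⟩, fun a x hx => ⟨h3 a x hx.1, ?_⟩,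
      fun a x hx => ⟨h4 a x hx.1, ?_⟩⟩
    · rw [SetLike.mem_coe, Submodule.mem_comap]
      have e : dg 𝕜 X ((p * p) * q - p * (p * q)) =
          ((p + dg 𝕜 X p) * (p + dg 𝕜 X p) * q - (p + dg 𝕜 X p) * ((p + dg 𝕜 X p) * q))
          - ((p * p) * q - p * (p * q))
          - ((dg 𝕜 X p * dg 𝕜 X p) * q - dg 𝕜 X p * (dg 𝕜 X p * q))
          + ((p * p) * dg 𝕜 X q - p * (p * dg 𝕜 X q)) := by
        rw [map_sub, dg_mul, dg_mul, dg_mul, dg_mul]
        simp only [add_mul, mul_add]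
        abel
      rw [e]
      exact Submodule.add_mem _ (Submodule.sub_mem _ (Submodule.sub_mem _ (h1 _ _) (h1 _ _))
        (h1 _ _)) (h1 _ _)
    · rw [SetLike.mem_coe, Submodule.mem_comap]
      have e : dg 𝕜 X ((q * p) * p - q * (p * p)) =
          ((q * (p + dg 𝕜 X p)) * (p + dg 𝕜 X p) - q * ((p + dg 𝕜 X p) * (p + dg 𝕜 X p)))
          - ((q * p) * p - q * (p * p))
          - ((q * dg 𝕜 X p) * dg 𝕜 X p - q * (dg 𝕜 X p * dg 𝕜 X p))
          + ((dg 𝕜 X q * p) * p - dg 𝕜 X q * (p * p)) := by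
        rw [map_sub, dg_mul, dg_mul, dg_mul, dg_mul]
        simp only [add_mul, mul_add]
        abel
      rw [e]
      exact Submodule.add_mem _ (Submodule.sub_mem _ (Submodule.sub_mem _ (h2 _ _) (h2 _ _))
        (h2 _ _)) (h2 _ _)
    · rw [SetLike.mem_coe, Submodule.mem_comap, dg_mul]
      exact Submodule.add_mem _ (h3 _ _ hx.1) (h3 _ _ hx.2)
    · rw [SetLike.mem_coe, Submodule.mem_comap, dg_mul]
      exact Submodule.add_mem _ (h4 _ _ hx.2) (h4 _ _ hx.1)
  exact (h hx).2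

/-- the degree derivation of `Alt` -/
noncomputable def degE : Alt 𝕜 X →ₗ[𝕜] Alt 𝕜 X :=
  (altIdeal 𝕜 X).mapQ (altIdeal 𝕜 X) (dg 𝕜 X) (dg_altIdeal 𝕜 X)

lemma degE_mk (x : FreeNonUnitalNonAssocAlgebra 𝕜 X) :
    degE 𝕜 X ((altIdeal 𝕜 X).mkQ x) = (altIdeal 𝕜 X).mkQ (dg 𝕜 X x) := rfl

lemma degE_mul (x y : Alt 𝕜 X) : degE 𝕜 X (x * y) = degE 𝕜 X x * y + x * degE 𝕜 X y := by
  obtain ⟨x, rfl⟩ := exists_mk 𝕜 X x
  obtain ⟨y, rfl⟩ := exists_mk 𝕜 X y
  rw [mk_mul, degE_mk, dg_mul, map_add, degE_mk, degE_mk, mk_mul, mk_mul]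

/-- the part of degree `n` -/
noncomputable def part (n : ℕ) : Submodule 𝕜 (Alt 𝕜 X) :=
  Submodule.span 𝕜 ((fun w => (altIdeal 𝕜 X).mkQ (wrd 𝕜 X w)) '' {w | w.length = n})

lemma part_le (n : ℕ) : part 𝕜 X n ≤ Module.End.eigenspace (degE 𝕜 X) (n : 𝕜) := by
  rw [part, Submodule.span_le]
  rintro _ ⟨w, hw, rfl⟩
  rw [SetLike.mem_coe, Module.End.mem_eigenspace_iff]
  change degE 𝕜 X ((altIdeal 𝕜 X).mkQ (wrd 𝕜 X w)) = _
  rw [degE_mk, dg_wrd, map_smul]
  have : w.length = n := hw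
  rw [this]

lemma iSup_part : ⨆ n, part 𝕜 X n = ⊤ := by
  rw [eq_top_iff]
  rintro a -
  obtain ⟨a, rfl⟩ := exists_mk 𝕜 X a
  induction a using MonoidAlgebra.induction_linear with
  | zero => rw [map_zero]; exact Submodule.zero_mem _
  | add x y hx hy => rw [map_add]; exact Submodule.add_mem _ hx hy
  | single w r =>
    rw [single_eq, map_smul]
    apply Submodule.smul_mem
    exact Submodule.mem_iSup_of_mem w.length (Submodule.subset_span ⟨w, rfl, rfl⟩)

lemma part_zero : part 𝕜 X 0 = ⊥ := by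
  rw [part, Submodule.span_eq_bot]
  rintro _ ⟨w, hw, rfl⟩
  exact absurd hw (FreeMagma.length_pos w).ne'

lemma part_indep [CharZero 𝕜] : iSupIndep (part 𝕜 X) := by
  have h := (Module.End.eigenspaces_iSupIndep (degE 𝕜 X)).comp (Nat.cast_injective (R := 𝕜))
  exact h.mono (part_le 𝕜 X)

lemma part_prod (n : ℕ) (hn : 2 ≤ n) :
    part 𝕜 X n ≤ Submodule.span 𝕜 {x | ∃ p q : Alt 𝕜 X, x = p * q} := by
  rw [part, Submodule.span_le]
  rintro _ ⟨w, hw, rfl⟩
  have hw' : w.length = n := hw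
  induction w with
  | ih1 x =>
    rw [len_of] at hw'
    omega
  | ih2 x y _ _ =>
    apply Submodule.subset_span
    refine ⟨(altIdeal 𝕜 X).mkQ (wrd 𝕜 X x), (altIdeal 𝕜 X).mkQ (wrd 𝕜 X y), ?_⟩
    change (altIdeal 𝕜 X).mkQ (wrd 𝕜 X (x * y)) = _
    rw [mk_mul, wrd_mul]

end Deg

lemma finite_words (X : Type v) [Finite X] : ∀ n : ℕ, {w : FreeMagma X | w.length = n}.Finite := by
  intro n
  induction n using Nat.strong_induction_on with
  | _ n ih =>
    have h1 : (Set.range (FreeMagma.of : X → FreeMagma X)).Finite := Set.finite_range _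
    have h2 : (⋃ k ∈ Finset.range n, ⋃ l ∈ Finset.range n,
        Set.image2 (fun u v : FreeMagma X => u * v) {w | w.length = k} {w | w.length = l}).Finite := by
      refine Set.Finite.biUnion (Finset.finite_toSet _) fun k hk => ?_
      refine Set.Finite.biUnion (Finset.finite_toSet _) fun l hl => ?_
      exact Set.Finite.image2 _ (ih k (Finset.mem_range.1 hk)) (ih l (Finset.mem_range.1 hl))
    refine (h1.union h2).subset ?_
    intro w hw
    have hw' : w.length = n := hw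
    induction w with
    | ih1 x => exact Or.inl ⟨x, rfl⟩
    | ih2 x y _ _ =>
      right
      rw [len_mul] at hw'
      have hx := FreeMagma.length_pos x
      have hy := FreeMagma.length_pos y
      refine Set.mem_biUnion (x := x.length) (Finset.mem_coe.2 (Finset.mem_range.2 (by omega))) ?_
      refine Set.mem_biUnion (x := y.length) (Finset.mem_coe.2 (Finset.mem_range.2 (by omega))) ?_
      exact ⟨x, rfl, y, rfl, rfl⟩

section Basis

variable (𝕜 : Type u) [Field 𝕜]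

lemma part_fin (X : Type v) [Finite X] (n : ℕ) : Module.Finite 𝕜 (part 𝕜 X n) := by
  rw [part]
  exact Module.Finite.span_of_finite 𝕜 ((finite_words X n).image _)

/-- right-normed words -/
def rw' {X : Type v} (x : X) : List X → FreeMagma X
  | [] => FreeMagma.of x
  | (y :: l) => FreeMagma.of x * rw' y l

lemma rw'_length {X : Type v} (x : X) (l : List X) : (rw' x l).length = l.length + 1 := by
  induction l generalizing x with
  | nil => rfl
  | cons y l ih => rw [rw', len_mul, len_of, ih, List.length_cons]; omega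

/-- the free associative algebra -/
abbrev FAs (X : Type v) : Type (max u v) := MonoidAlgebra 𝕜 (FreeMonoid X)

instance instAltAs (X : Type v) : IsAlt (FAs 𝕜 X) where
  left_alt p q := mul_assoc _ _ _
  right_alt p q := mul_assoc _ _ _

lemma lift_wrd {X : Type v} {A : Type w} [NonUnitalNonAssocRing A] [Module 𝕜 A]
    [IsScalarTower 𝕜 A A] [SMulCommClass 𝕜 A A] (f : X → A) (x : X) :
    FreeNonUnitalNonAssocAlgebra.lift 𝕜 f (wrd 𝕜 X (FreeMagma.of x)) = f x :=
  FreeNonUnitalNonAssocAlgebra.lift_of_apply 𝕜 f x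

lemma lift_rw' {X : Type v} (x : X) (l : List X) :
    FreeNonUnitalNonAssocAlgebra.lift 𝕜
      (fun x : X => (MonoidAlgebra.single (FreeMonoid.of x) 1 : FAs 𝕜 X)) (wrd 𝕜 X (rw' x l)) =
      MonoidAlgebra.single (FreeMonoid.ofList (x :: l)) 1 := by
  induction l generalizing x with
  | nil =>
    rw [rw', lift_wrd]
    rfl
  | cons y l ih =>
    rw [rw', wrd_mul, map_mul, ih, lift_wrd, MonoidAlgebra.single_mul_single, mul_one]
    rfl

lemma card_le_part (m n : ℕ) : m ^ (n + 1) ≤ Module.finrank 𝕜 (part 𝕜 (Fin m) (n + 1)) := by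
  have := part_fin 𝕜 (Fin m) (n + 1)
  let g : Alt 𝕜 (Fin m) →ₙₐ[𝕜] FAs 𝕜 (Fin m) :=
    altLift 𝕜 fun x => MonoidAlgebra.single (FreeMonoid.of x) 1
  let v : (Fin m × (Fin n → Fin m)) → part 𝕜 (Fin m) (n + 1) := fun a =>
    ⟨(altIdeal 𝕜 (Fin m)).mkQ (wrd 𝕜 (Fin m) (rw' a.1 (List.ofFn a.2))),
      Submodule.subset_span ⟨_, by
        change FreeMagma.length _ = _
        rw [rw'_length, List.length_ofFn], rfl⟩⟩
  let φ : part 𝕜 (Fin m) (n + 1) →ₗ[𝕜] FAs 𝕜 (Fin m) :=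
    (g : Alt 𝕜 (Fin m) →ₗ[𝕜] FAs 𝕜 (Fin m)).comp (Submodule.subtype _)
  have h1 : LinearIndependent 𝕜 (φ ∘ v) := by
    have h2 : φ ∘ v = (MonoidAlgebra.basis (FreeMonoid (Fin m)) 𝕜) ∘
        fun a : Fin m × (Fin n → Fin m) => FreeMonoid.ofList (a.1 :: List.ofFn a.2) := by
      funext a
      rw [Function.comp_apply, Function.comp_apply, MonoidAlgebra.basis_apply]
      change altLift 𝕜 _ ((altIdeal 𝕜 (Fin m)).mkQ _) = _
      rw [altLift_mk]
      exact lift_rw' 𝕜 _ _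
    rw [h2]
    refine (MonoidAlgebra.basis (FreeMonoid (Fin m)) 𝕜).linearIndependent.comp _ ?_
    rintro ⟨x, a⟩ ⟨y, b⟩ h
    have h3 : x :: List.ofFn a = y :: List.ofFn b := FreeMonoid.ofList.injective h
    rw [List.cons.injEq] at h3
    rw [h3.1, List.ofFn_injective h3.2]
  have h2 : LinearIndependent 𝕜 v := LinearIndependent.of_comp φ h1
  have h3 := h2.fintype_card_le_finrank
  rwa [Fintype.card_prod, Fintype.card_fin, Fintype.card_fun, Fintype.card_fin, Fintype.card_fin,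
    ← pow_succ'] at h3

lemma part_one_le (m : ℕ) : Module.finrank 𝕜 (part 𝕜 (Fin m) 1) ≤ m := by
  have h1 : part 𝕜 (Fin m) 1 = Submodule.span 𝕜 (Set.range fun x : Fin m =>
      (altIdeal 𝕜 (Fin m)).mkQ (wrd 𝕜 (Fin m) (FreeMagma.of x))) := by
    rw [part]
    congr 1
    ext a
    constructor
    · rintro ⟨w, hw, rfl⟩
      have hw' : w.length = 1 := hw
      induction w with
      | ih1 x => exact ⟨x, rfl⟩
      | ih2 x y _ _ =>
        rw [len_mul] at hw'
        have hx := FreeMagma.length_pos x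
        have hy := FreeMagma.length_pos y
        omega
    · rintro ⟨x, rfl⟩
      exact ⟨FreeMagma.of x, rfl, rfl⟩
  rw [h1]
  refine (finrank_range_le_card _).trans ?_
  rw [Fintype.card_fin]

theorem alt_basis [CharZero 𝕜] (m : ℕ) : ∃ (ι : Type u) (b : Module.Basis ι 𝕜 (Alt 𝕜 (Fin m)))
    (deg : ι → ℕ) (E : Alt 𝕜 (Fin m) →ₗ[𝕜] Alt 𝕜 (Fin m)),
    (∀ i, E (b i) = (deg i : 𝕜) • b i) ∧ (∀ x y, E (x * y) = E x * y + x * E y) ∧
    (∀ i, 1 ≤ deg i) ∧ (∀ n, {i | deg i = n}.Finite) ∧ {i | deg i = 1}.ncard = m ∧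
    (∀ n, 1 ≤ n → m ^ n ≤ {i | deg i = n}.ncard) ∧
    (∀ i, 2 ≤ deg i → b i ∈ Submodule.span 𝕜 {x | ∃ p q, x = p * q}) := by
  classical
  have hfin : ∀ n, Module.Finite 𝕜 (part 𝕜 (Fin m) n) := part_fin 𝕜 (Fin m)
  have hint : DirectSum.IsInternal (part 𝕜 (Fin m)) :=
    (DirectSum.isInternal_submodule_iff_iSupIndep_and_iSup_eq_top _).2
      ⟨part_indep 𝕜 (Fin m), iSup_part 𝕜 (Fin m)⟩
  let c : (n : ℕ) → Module.Basis (Module.Basis.ofVectorSpaceIndex 𝕜 (part 𝕜 (Fin m) n)) 𝕜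
    (part 𝕜 (Fin m) n) := fun n => Module.Basis.ofVectorSpace 𝕜 _
  let ι : Type u := (n : ℕ) × (Module.Basis.ofVectorSpaceIndex 𝕜 (part 𝕜 (Fin m) n))
  let b : Module.Basis ι 𝕜 (Alt 𝕜 (Fin m)) := hint.collectedBasis c
  have hb : ∀ i : ι, b i ∈ part 𝕜 (Fin m) i.1 := fun i => hint.collectedBasis_mem c i
  have hset : ∀ n, {i : ι | i.1 = n} = Set.range (fun x => (⟨n, x⟩ : ι)) := by
    intro n
    ext ⟨k, x⟩
    constructor
    · intro h
      have h' : k = n := h
      subst h'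
      exact ⟨x, rfl⟩
    · rintro ⟨y, hy⟩
      exact (congrArg Sigma.fst hy).symm
  have hfi : ∀ n, Finite (Module.Basis.ofVectorSpaceIndex 𝕜 (part 𝕜 (Fin m) n)) := fun n =>
    Module.Finite.finite_basis (c n)
  have hcard : ∀ n, {i : ι | i.1 = n}.ncard = Module.finrank 𝕜 (part 𝕜 (Fin m) n) := by
    intro n
    have hinj : Function.Injective (fun x => (⟨n, x⟩ : ι)) := fun x y h =>
      eq_of_heq (Sigma.mk.inj h).2
    rw [hset, Module.finrank_eq_nat_card_basis (c n), ← Set.image_univ,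
      Set.ncard_image_of_injective _ hinj, Set.ncard_univ]
  refine ⟨ι, b, fun i => i.1, degE 𝕜 (Fin m), ?_, degE_mul 𝕜 (Fin m), ?_, ?_, ?_, ?_, ?_⟩
  · intro i
    exact Module.End.mem_eigenspace_iff.1 (part_le 𝕜 (Fin m) i.1 (hb i))
  · rintro ⟨n, x⟩
    change 1 ≤ n
    by_contra hn
    have hn' : n = 0 := by omega
    subst hn'
    have h1 := hb ⟨0, x⟩
    rw [part_zero, Submodule.mem_bot] at h1
    exact b.ne_zero _ h1
  · intro n
    change {i : ι | i.1 = n}.Finite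
    rw [hset]
    exact Set.finite_range _
  · change {i : ι | i.1 = 1}.ncard = m
    rw [hcard]
    refine le_antisymm (part_one_le 𝕜 m) ?_
    simpa using card_le_part 𝕜 m 0
  · intro n hn
    change m ^ n ≤ {i : ι | i.1 = n}.ncard
    rw [hcard]
    obtain ⟨k, rfl⟩ : ∃ k, n = k + 1 := ⟨n - 1, by omega⟩
    exact card_le_part 𝕜 m k
  · intro i hi
    exact part_prod 𝕜 (Fin m) i.1 hi (hb i)

end Basis

end Pool.Agent.J4H71.ABG
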